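import Pool.Agent.Helper97.Nag.Goals

/-!
# Packet NAG-ENTK (MP_d3128a_ag): the entries are images of the generic entries
-/

set_option autoImplicit false

noncomputable section

namespace Pool.Agent.Helper23.Nag.ENTK

open Pool.Agent.Helper97 Pool.Agent.Helper97.Nag
open Pool.Agent.Helper97.Tate (OO KK SS cf IsTh qe Th iO ser evx evK evR th)

variable {F : Type} [Field F]

/-- the functional of `S_EVC` as an additive map. -/
def Ph (x : Fˣ) (α : ℕ) : LaurentPolynomial F →+ F :=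
  (Finsupp.liftAddHom (fun n : ℤ => AddMonoidHom.mulRight
    (((x ^ n : Fˣ) : F) * ((Ring.choose n α : ℤ) : F)))).comp
      (AddMonoidAlgebra.coeffAddEquiv (R := F) (M := ℤ)).toAddMonoidHom

theorem Ph_apply (x : Fˣ) (α : ℕ) (u : LaurentPolynomial F) :
    Ph x α u = u.coeff.sum
      (fun n a => a * (((x ^ n : Fˣ) : F) * ((Ring.choose n α : ℤ) : F))) := rfl

theorem Ph_CT (x : Fˣ) (α : ℕ) (a : F) (n : ℤ) :
    Ph x α (LaurentPolynomial.C a * LaurentPolynomial.T n) =
      a * (((x ^ n : Fˣ) : F) * ((Ring.choose n α : ℤ) : F)) := by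
  rw [← LaurentPolynomial.single_eq_C_mul_T, Ph_apply, AddMonoidAlgebra.coeff_single,
    Finsupp.sum_single_index (by rw [zero_mul])]

/-- the monomials of `GG` -/
def mhG {r p : ℕ} (w : Fin r × Fin p → Fˣ) (x y : Fin r → Fˣ) :
    Multiplicative (GG r p) →* F where
  toFun g := (monK w x y (Multiplicative.toAdd g) : F)
  map_one' := by simp [monK]
  map_mul' := by
    intro g h
    rw [← Units.val_mul]
    congr 1
    simp only [monK, toAdd_mul, Prod.fst_add, Prod.snd_add, Pi.add_apply, zpow_add,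
      Finset.prod_mul_distrib]
    ac_rfl

/-- the product of the powers of the `w i` -/
def prw {r p : ℕ} (w : Fin r × Fin p → Fˣ) (g : Fin r × Fin p → ℤ) : Fˣ := ∏ i, w i ^ g i

theorem prw_add {r p : ℕ} (w : Fin r × Fin p → Fˣ) (g h : Fin r × Fin p → ℤ) :
    prw w (g + h) = prw w g * prw w h := by
  unfold prw
  rw [← Finset.prod_mul_distrib]
  exact Finset.prod_congr rfl fun i _ => by rw [Pi.add_apply, zpow_add]

/-- the monomials of `HH` -/
def mhH {r p : ℕ} (w : Fin r × Fin p → Fˣ) : Multiplicative (HH r p) →* LaurentPolynomial F where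
  toFun g := LaurentPolynomial.C (prw w (Multiplicative.toAdd g).2 : F) *
    LaurentPolynomial.T (Multiplicative.toAdd g).1
  map_one' := by simp [prw]
  map_mul' := by
    intro g h
    rw [toAdd_mul, Prod.fst_add, Prod.snd_add, prw_add, Units.val_mul, map_mul,
      LaurentPolynomial.T_add]
    ring

variable [CharZero F]

theorem smul_CT (b : ℚ) (a : F) (n : ℤ) :
    b • (LaurentPolynomial.C a * LaurentPolynomial.T n) =
      LaurentPolynomial.C ((b : F) * a) * LaurentPolynomial.T n := by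
  have h1 : algebraMap ℚ (LaurentPolynomial F) b = LaurentPolynomial.C (b : F) := by
    have h2 := congrArg (fun f : ℚ →+* LaurentPolynomial F => f b) (Subsingleton.elim
      (algebraMap ℚ (LaurentPolynomial F)) (LaurentPolynomial.C.comp (algebraMap ℚ F)))
    rw [h2, RingHom.comp_apply, eq_ratCast]
  rw [Algebra.smul_def, h1, map_mul, mul_assoc]

/-- `ψ : ℚ[HH] → F[T, 1/T]` -/
def psi {r p : ℕ} (w : Fin r × Fin p → Fˣ) :
    AddMonoidAlgebra ℚ (HH r p) →+* LaurentPolynomial F :=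
  (AddMonoidAlgebra.lift ℚ (LaurentPolynomial F) (HH r p) (mhH w) :
    AddMonoidAlgebra ℚ (HH r p) →+* LaurentPolynomial F)

theorem psi_single {r p : ℕ} (w : Fin r × Fin p → Fˣ) (h : HH r p) (b : ℚ) :
    psi w (AddMonoidAlgebra.single h b) =
      LaurentPolynomial.C ((b : F) * ((prw w h.2 : Fˣ) : F)) * LaurentPolynomial.T h.1 := by
  have h1 : psi w (AddMonoidAlgebra.single h b) = b • (LaurentPolynomial.C (prw w h.2 : F) *
      LaurentPolynomial.T h.1) := AddMonoidAlgebra.lift_single _ _ _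
  rw [h1, smul_CT]

theorem psi_apply {r p : ℕ} (w : Fin r × Fin p → Fˣ) (u : AddMonoidAlgebra ℚ (HH r p)) :
    psi w u = u.coeff.sum fun h b =>
      LaurentPolynomial.C ((b : F) * ((prw w h.2 : Fˣ) : F)) * LaurentPolynomial.T h.1 := by
  have h1 : psi w u = u.coeff.sum fun h b => b • (LaurentPolynomial.C (prw w h.2 : F) *
      LaurentPolynomial.T h.1) := AddMonoidAlgebra.lift_apply _ _
  rw [h1]
  exact Finset.sum_congr rfl fun h _ => smul_CT _ _ _

theorem psi_thG {r p : ℕ} (w : Fin r × Fin p → Fˣ) (i : Fin r × Fin p) :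
    PowerSeries.map (psi w) (thG i) = th (w i) := by
  ext1 N
  rw [PowerSeries.coeff_map]
  unfold thG th Th
  rw [PowerSeries.coeff_mk, PowerSeries.coeff_mk, map_sum]
  refine Finset.sum_congr rfl fun a _ => ?_
  by_cases h : qe 1 0 a = N
  · rw [if_pos h, if_pos h, psi_single]
    have h1 : prw w (-(Pi.single i a : Fin r × Fin p → ℤ)) = w i ^ (-a) := by
      unfold prw
      rw [Finset.prod_eq_single i]
      · rw [Pi.neg_apply, Pi.single_eq_same]
      · intro i' _ hi
        rw [Pi.neg_apply, Pi.single_eq_of_ne hi, neg_zero, zpow_zero]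
      · intro hi
        exact absurd (Finset.mem_univ i) hi
    have h2 : (((-1 : ℚ) ^ a : ℚ) : F) * ((w i ^ (-a) : Fˣ) : F) =
        (-(((w i)⁻¹ : Fˣ) : F)) ^ a := by
      rw [neg_eq_neg_one_mul (((w i)⁻¹ : Fˣ) : F), mul_zpow, zpow_neg, ← inv_zpow]
      push_cast
      rfl
    dsimp only
    rw [h1, h2]
    congr 2
    push_cast
    ring
  · rw [if_neg h, if_neg h, map_zero]

theorem pow_mul_eq {r p : ℕ} (w : Fin r × Fin p → Fˣ) (e : ℕ) (a : ℤ) :
    (((-1 : ℚ) ^ ((r * p * e : ℕ) * a) : ℚ) : F) *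
      ((prw w (fun _ => (e : ℤ) * a) : Fˣ) : F) =
      (∏ i, (-((w i : Fˣ) : F)) ^ e) ^ a := by
  have h1 : (∏ i, (-((w i : Fˣ) : F)) ^ e) = (-1) ^ (r * p * e) * ∏ i, ((w i : Fˣ) : F) ^ e := by
    rw [Finset.prod_congr rfl fun i _ => neg_pow ((w i : Fˣ) : F) e, Finset.prod_mul_distrib,
      Finset.prod_const, ← pow_mul]
    congr 2
    rw [Finset.card_univ, Fintype.card_prod, Fintype.card_fin, Fintype.card_fin]
    ring
  have h2 : ((prw w (fun _ => (e : ℤ) * a) : Fˣ) : F) = (∏ i, ((w i : Fˣ) : F) ^ e) ^ a := by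
    unfold prw
    rw [← Finset.prod_zpow]
    rw [Units.coe_prod]
    refine Finset.prod_congr rfl fun i _ => ?_
    rw [Units.val_zpow_eq_zpow_val, zpow_mul, zpow_natCast]
  rw [h1, h2, mul_zpow]
  congr 1
  push_cast
  rw [zpow_mul]
  congr 1
  norm_cast

theorem psi_ThG {r p : ℕ} (w : Fin r × Fin p → Fˣ) (κ : ℕ) (ρ : ℤ) (e : ℕ) :
    PowerSeries.map (psi w) (ThG r p κ ρ e) = Th κ ρ (∏ i, (-((w i : Fˣ) : F)) ^ e) := by
  ext1 N
  rw [PowerSeries.coeff_map]
  unfold ThG Th
  rw [PowerSeries.coeff_mk, PowerSeries.coeff_mk, map_sum]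
  refine Finset.sum_congr rfl fun a _ => ?_
  by_cases h : qe κ ρ a = N
  · rw [if_pos h, if_pos h, psi_single]
    dsimp only
    rw [pow_mul_eq]
  · rw [if_neg h, if_neg h, map_zero]

/-- the section before evaluation -/
def Phi (k r p d m : ℕ) (w : Fin r × Fin p → Fˣ) (j ρ : ℕ) : SS F :=
  (∏ i, th (w i)) ^ (j - m) *
    if k * j = d then 1 else Th (kap k d m j) (ρ : ℤ) (∏ i, (-((w i : Fˣ) : F)) ^ (m - j))

theorem psi_FG (k r p d m : ℕ) (w : Fin r × Fin p → Fˣ) (j ρ : ℕ) :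
    PowerSeries.map (psi w) (FG k r p d m j ρ) = Phi k r p d m w j ρ := by
  unfold FG Phi
  rw [map_mul, map_pow, map_prod, Finset.prod_congr rfl fun i _ => psi_thG w i]
  congr 1
  split_ifs
  · rw [map_one]
  · rw [psi_ThG]

omit [CharZero F] in
theorem evK_Phi (k r p d m : ℕ) (w : Fin r × Fin p → Fˣ) (x : Fˣ) (j ρ : ℕ) :
    evK x (Phi k r p d m w j ρ) = SER k d m w x j ρ := by
  unfold Phi SER
  rw [map_mul, map_pow, map_prod]
  congr 1
  split_ifs
  · rw [map_one]
  · rfl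

/-- `ιG : ℚ[GG] → F` -/
def iG {r p : ℕ} (w : Fin r × Fin p → Fˣ) (x y : Fin r → Fˣ) : AddMonoidAlgebra ℚ (GG r p) →+* F :=
  (AddMonoidAlgebra.lift ℚ F (GG r p) (mhG w x y) : AddMonoidAlgebra ℚ (GG r p) →+* F)

theorem iG_inj {r p : ℕ} (w : Fin r × Fin p → Fˣ) (x y : Fin r → Fˣ) (h : GenK w x y) :
    Function.Injective (iG w x y) := by
  rw [injective_iff_map_eq_zero]
  intro u hu
  have hu' : (AddMonoidAlgebra.lift ℚ F (GG r p) (mhG w x y)) u = 0 := hu
  rw [AddMonoidAlgebra.lift_apply] at hu'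
  have h1 : Finsupp.linearCombination ℚ (fun g : GG r p => (monK w x y g : F)) u.coeff = 0 := by
    rw [Finsupp.linearCombination_apply]
    exact hu'
  have h2 : u.coeff = 0 := (linearIndependent_iff.1 h) _ h1
  ext g
  rw [h2]
  rfl

theorem iG_single {r p : ℕ} (w : Fin r × Fin p → Fˣ) (x y : Fin r → Fˣ) (g : GG r p) (b : ℚ) :
    iG w x y (AddMonoidAlgebra.single g b) = (b : F) * ((monK w x y g : Fˣ) : F) := by
  have h1 : iG w x y (AddMonoidAlgebra.single g b) = b • ((monK w x y g : Fˣ) : F) :=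
    AddMonoidAlgebra.lift_single _ _ _
  rw [h1, Algebra.smul_def, eq_ratCast]

omit [CharZero F] in
theorem monK_exG {r p : ℕ} (w : Fin r × Fin p → Fˣ) (x y : Fin r → Fˣ) (l : Fin r) (j : ℕ)
    (h : HH r p) : monK w x y (exG l j h) = prw w h.2 * x l ^ h.1 * y l ^ j := by
  unfold monK exG prw
  dsimp only
  have e1 : ∏ i, x i ^ ((Pi.single l h.1 : Fin r → ℤ) i) = x l ^ h.1 := by
    rw [Finset.prod_eq_single l, Pi.single_eq_same]
    · intro i' _ h'
      rw [Pi.single_eq_of_ne h', zpow_zero]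
    · intro h'
      exact absurd (Finset.mem_univ l) h'
  have e2 : ∏ i, y i ^ ((Pi.single l (j : ℤ) : Fin r → ℤ) i) = y l ^ j := by
    rw [Finset.prod_eq_single l, Pi.single_eq_same, zpow_natCast]
    · intro i' _ h'
      rw [Pi.single_eq_of_ne h', zpow_zero]
    · intro h'
      exact absurd (Finset.mem_univ l) h'
  rw [e1, e2]

/-- the whole map -/
def ff {r p : ℕ} (w : Fin r × Fin p → Fˣ) (x y : Fin r → Fˣ) :
    PowerSeries (AddMonoidAlgebra ℚ (GG r p)) →+* KK F :=
  (algebraMap (OO F) (KK F)).comp (PowerSeries.map (iG w x y))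

theorem ff_inj {r p : ℕ} (w : Fin r × Fin p → Fˣ) (x y : Fin r → Fˣ) (h : GenK w x y) :
    Function.Injective (ff w x y) := by
  have h1 : Function.Injective (algebraMap (OO F) (KK F)) := IsFractionRing.injective (OO F) (KK F)
  have h2 : Function.Injective (PowerSeries.map (iG w x y)) :=
    PowerSeries.map_injective _ (iG_inj w x y h)
  exact h1.comp h2

theorem coef_eq {r p : ℕ} (w : Fin r × Fin p → Fˣ) (x y : Fin r → Fˣ) (l : Fin r) (α β j : ℕ)
    (u : AddMonoidAlgebra ℚ (HH r p)) :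
    iG w x y (u.coeff.sum fun h c =>
      AddMonoidAlgebra.single (exG l j h) (c * ((Ring.choose h.1 α : ℤ) : ℚ) * (j.choose β : ℚ))) =
      (((y l : Fˣ) : F) ^ j * (j.choose β : F)) * Ph (x l) α (psi w u) := by
  rw [map_finsuppSum, psi_apply, map_finsuppSum, Finsupp.mul_sum]
  refine Finset.sum_congr rfl fun h _ => ?_
  dsimp only
  rw [iG_single, monK_exG, Ph_CT]
  push_cast
  ring

theorem t (hE : Tate.S_EVC) : S_ENTK := by
  intro F _ _ k r p d m w x y hG
  refine ⟨ff w x y, ff_inj w x y hG, ?_⟩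
  intro l α β j ρ _
  rw [← evK_Phi, (hE F (x l) (Phi k r p d m w j ρ) 0 α).2.1]
  have hR : (algebraMap (OO F) (KK F) (PowerSeries.C ((y l : Fˣ) : F))) ^ j *
        ((j.choose β : ℕ) : KK F) *
          algebraMap (OO F) (KK F) (PowerSeries.coeff α (evx (x l) (Phi k r p d m w j ρ))) =
      algebraMap (OO F) (KK F) (PowerSeries.C (((y l : Fˣ) : F) ^ j * ((j.choose β : ℕ) : F)) *
        PowerSeries.coeff α (evx (x l) (Phi k r p d m w j ρ))) := by
    rw [map_mul, map_mul, map_mul, map_pow, map_pow, map_natCast, map_natCast]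
  rw [hR]
  unfold ff
  rw [RingHom.comp_apply]
  congr 1
  ext N
  rw [PowerSeries.coeff_map, PowerSeries.coeff_C_mul,
    (hE F (x l) (Phi k r p d m w j ρ) N α).1, ← Ph_apply, ← psi_FG, PowerSeries.coeff_map]
  unfold ENT
  rw [PowerSeries.coeff_mk, coef_eq]

end Pool.Agent.Helper23.Nag.ENTK
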